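import Pool.Agent.Helper60.CP.Stm2
import Pool.Agent.H206R2.Rot2.TI

/-!
# The volume bound for `U(n)`-invariant metrics on `S^(2n)` (part 2V)

Adapted from `Pool.Agent.Helper2.CPV.V` (the case of `ℂP^n`).
-/

set_option autoImplicit false

open Real Set MeasureTheory
open scoped ContDiff

namespace Pool.Agent.Helper59.CPS

open Pool.Agent.Helper60.CP
open Pool.Agent.H206R2.Rot2 (Veff)
open Pool.Agent.H206R2.Rot2.TI (gg gg_measurable gg_nonneg gg_bound gg_integrable gg_integral SC SC_one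
  beta_id)

lemma KK_cont : Continuous KK := by
  unfold KK
  fun_prop

lemma KK_nonneg (c : ℝ × ℝ) : 0 ≤ KK c := Real.sqrt_nonneg _

lemma le_KK (c : ℝ × ℝ) : c.2 ≤ KK c := by
  unfold KK
  apply Real.le_sqrt_of_sq_le
  nlinarith [sq_nonneg c.1]

lemma le_KK1 (c : ℝ × ℝ) : c.1 ≤ KK c := by
  unfold KK
  apply Real.le_sqrt_of_sq_le
  nlinarith [sq_nonneg c.2]

lemma Dsk_open (R : ℝ) : IsOpen (Dsk R) := by
  unfold Dsk
  have h1 : IsOpen {c : ℝ × ℝ | 0 < c.1} := isOpen_lt continuous_const continuous_fst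
  have h2 : IsOpen {c : ℝ × ℝ | 0 < c.2} := isOpen_lt continuous_const continuous_snd
  have h3 : IsOpen {c : ℝ × ℝ | KK c < R} := isOpen_lt KK_cont continuous_const
  exact h1.inter (h2.inter h3)

lemma Dsk_measurable (R : ℝ) : MeasurableSet (Dsk R) := (Dsk_open R).measurableSet

lemma Dsk_subset (R : ℝ) : Dsk R ⊆ Ioi (0 : ℝ) ×ˢ Ioi (0 : ℝ) := fun _ hc => ⟨hc.1, hc.2.1⟩

lemma Dsk_subset_Icc (R : ℝ) : Dsk R ⊆ Icc (0 : ℝ) R ×ˢ Icc (0 : ℝ) R := fun c hc =>
  ⟨⟨hc.1.le, (le_KK1 c).trans hc.2.2.le⟩, ⟨hc.2.1.le, (le_KK c).trans hc.2.2.le⟩⟩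

lemma Dsk_finite (R : ℝ) : volume (Dsk R) ≠ ⊤ := by
  have h1 : volume (Icc (0 : ℝ) R ×ˢ Icc (0 : ℝ) R) < ⊤ :=
    (isCompact_Icc.prod isCompact_Icc).measure_lt_top
  exact ((measure_mono (Dsk_subset_Icc R)).trans_lt h1).ne

/-- membership in the quarter disk -/
lemma mem_Dsk {s x y : ℝ} (hs : 0 < s) (hx : 0 < x) (hy : 0 < y) :
    (x, y) ∈ Dsk s ↔ y ^ 2 < s ^ 2 - x ^ 2 := by
  have h0 : (x, y) ∈ Dsk s ↔ √(x ^ 2 + y ^ 2) < s := by
    unfold Dsk KK
    simp [hx, hy]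
  rw [h0, Real.sqrt_lt' hs]
  constructor <;> intro h <;> linarith

lemma ind_integrable (s : ℝ) (b : ℕ) :
    Integrable ((Dsk s).indicator (fun c : ℝ × ℝ => c.2 ^ b)) := by
  rw [integrable_indicator_iff (Dsk_measurable s)]
  have h1 : IntegrableOn (fun c : ℝ × ℝ => c.2 ^ b) (Icc (0 : ℝ) s ×ˢ Icc (0 : ℝ) s) :=
    (Continuous.continuousOn (by fun_prop)).integrableOn_compact (isCompact_Icc.prod isCompact_Icc)
  exact h1.mono_set (Dsk_subset_Icc s)

lemma inner_dsk {s : ℝ} (hs : 0 < s) (m : ℕ) (x : ℝ) :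
    ∫ y, (Dsk s).indicator (fun c : ℝ × ℝ => c.2 ^ (2 * m + 1)) (x, y) =
      (Ioo 0 s).indicator (fun x => (s ^ 2 - x ^ 2) ^ (m + 1) / (2 * ((m : ℝ) + 1))) x := by
  by_cases hx : x ∈ Ioo 0 s
  · rw [indicator_of_mem hx]
    have hpos : 0 < s ^ 2 - x ^ 2 := by nlinarith [hx.2, hx.1]
    set Y := √(s ^ 2 - x ^ 2) with hY
    have hY0 : 0 < Y := Real.sqrt_pos.2 hpos
    have hY2 : Y ^ 2 = s ^ 2 - x ^ 2 := Real.sq_sqrt hpos.le
    have e : (fun y : ℝ => (Dsk s).indicator (fun c : ℝ × ℝ => c.2 ^ (2 * m + 1)) (x, y)) =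
        (Ioo 0 Y).indicator (fun y => y ^ (2 * m + 1)) := by
      funext y
      by_cases hy : 0 < y
      · by_cases hm : (x, y) ∈ Dsk s
        · rw [indicator_of_mem hm]
          rw [mem_Dsk hs hx.1 hy] at hm
          have : y ∈ Ioo 0 Y := ⟨hy, by rw [hY]; exact Real.lt_sqrt_of_sq_lt hm⟩
          rw [indicator_of_mem this]
        · rw [indicator_of_notMem hm]
          rw [mem_Dsk hs hx.1 hy] at hm
          have : y ∉ Ioo 0 Y := by
            intro h
            apply hm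
            rw [← hY2]
            nlinarith [h.1, h.2]
          rw [indicator_of_notMem this]
      · have h1 : (x, y) ∉ Dsk s := fun h => hy h.2.1
        have h2 : y ∉ Ioo 0 Y := fun h => hy h.1
        rw [indicator_of_notMem h1, indicator_of_notMem h2]
    rw [e, integral_indicator measurableSet_Ioo, ← integral_Ioc_eq_integral_Ioo,
      ← intervalIntegral.integral_of_le hY0.le, integral_pow]
    have e2 : Y ^ (2 * m + 1 + 1) = (s ^ 2 - x ^ 2) ^ (m + 1) := by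
      rw [show 2 * m + 1 + 1 = 2 * (m + 1) by ring, pow_mul, hY2]
    rw [e2]
    push_cast
    rw [zero_pow (by omega), sub_zero]
    congr 1
    ring
  · rw [indicator_of_notMem hx]
    have e : (fun y : ℝ => (Dsk s).indicator (fun c : ℝ × ℝ => c.2 ^ (2 * m + 1)) (x, y)) =
        fun _ => 0 := by
      funext y
      apply indicator_of_notMem
      intro h
      have h1 : 0 < x := h.1
      have h2 : x ≤ KK (x, y) := le_KK1 (x, y)
      exact hx ⟨h1, lt_of_le_of_lt h2 h.2.2⟩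
    rw [e]
    simp

/-- half of `∫ sin^(2m+3)` over `[0, π]` -/
lemma J_eq (m : ℕ) : ∫ u in (0 : ℝ)..1, (1 - u ^ 2) ^ (m + 1) =
    (∫ t in (0 : ℝ)..π, Real.sin t ^ (2 * m + 3)) / 2 := by
  have h1 := integral_sin_pow_odd_mul_cos_pow (a := 0) (b := π) (m + 1) 0
  simp only [pow_zero, mul_one, one_mul, Real.cos_zero, Real.cos_pi] at h1
  rw [show 2 * m + 3 = 2 * (m + 1) + 1 by ring, h1]
  have h2 : ∫ u in (-1 : ℝ)..1, (1 - u ^ 2) ^ (m + 1) =
      (∫ u in (-1 : ℝ)..0, (1 - u ^ 2) ^ (m + 1)) + ∫ u in (0 : ℝ)..1, (1 - u ^ 2) ^ (m + 1) :=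
    (intervalIntegral.integral_add_adjacent_intervals
      (Continuous.intervalIntegrable (by fun_prop) _ _)
      (Continuous.intervalIntegrable (by fun_prop) _ _)).symm
  have h3 : ∫ u in (-1 : ℝ)..0, (1 - u ^ 2) ^ (m + 1) = ∫ u in (0 : ℝ)..1, (1 - u ^ 2) ^ (m + 1) := by
    have h4 := intervalIntegral.integral_comp_neg (a := (0 : ℝ)) (b := 1)
      (fun u : ℝ => (1 - u ^ 2) ^ (m + 1))
    simp only [neg_sq, neg_zero] at h4
    exact h4.symm
  rw [h2, h3]
  ring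

lemma scale_int {s : ℝ} (hs : 0 < s) (m : ℕ) :
    ∫ x in (0 : ℝ)..s, (s ^ 2 - x ^ 2) ^ (m + 1) =
      s ^ (2 * m + 3) * ∫ u in (0 : ℝ)..1, (1 - u ^ 2) ^ (m + 1) := by
  have h1 := intervalIntegral.integral_comp_mul_left (a := (0 : ℝ)) (b := 1)
    (fun x : ℝ => (s ^ 2 - x ^ 2) ^ (m + 1)) hs.ne'
  rw [mul_zero, mul_one, smul_eq_mul] at h1
  have h2 : (fun u : ℝ => (s ^ 2 - (s * u) ^ 2) ^ (m + 1)) =
      fun u => s ^ (2 * m + 2) * (1 - u ^ 2) ^ (m + 1) := by
    funext u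
    rw [show 2 * m + 2 = 2 * (m + 1) by ring, pow_mul, ← mul_pow]
    congr 1
    ring
  rw [h2, intervalIntegral.integral_const_mul] at h1
  have h3 : ∫ x in (0 : ℝ)..s, (s ^ 2 - x ^ 2) ^ (m + 1) =
      s * (s⁻¹ * ∫ x in (0 : ℝ)..s, (s ^ 2 - x ^ 2) ^ (m + 1)) := by
    rw [← mul_assoc, mul_inv_cancel₀ hs.ne', one_mul]
  rw [h3, ← h1]
  ring

lemma Dsk_int {s : ℝ} (hs : 0 < s) (m : ℕ) :
    ∫ c in Dsk s, c.2 ^ (2 * m + 1) =
      s ^ (2 * m + 3) * (∫ t in (0 : ℝ)..π, Real.sin t ^ (2 * m + 3)) / (4 * ((m : ℝ) + 1)) := by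
  rw [← integral_indicator (Dsk_measurable s)]
  have hi := ind_integrable s (2 * m + 1)
  rw [Measure.volume_eq_prod] at hi ⊢
  rw [integral_prod _ hi]
  simp_rw [inner_dsk hs m]
  rw [integral_indicator measurableSet_Ioo, ← integral_Ioc_eq_integral_Ioo,
    ← intervalIntegral.integral_of_le (by positivity), intervalIntegral.integral_div,
    scale_int hs m, J_eq m]
  have h4 : (m : ℝ) + 1 ≠ 0 := by positivity
  field_simp
  ring

/-- The integral of `(R - K) c₂^(2m+1)` over the quarter disk. -/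
lemma lower_intD {R : ℝ} (hR : 0 < R) (m : ℕ) :
    ∫ c in Dsk R, (R - KK c) * c.2 ^ (2 * m + 1) =
      R ^ (2 * m + 4) * (∫ t in (0 : ℝ)..π, Real.sin t ^ (2 * m + 3)) /
        (8 * ((m : ℝ) + 1) * ((m : ℝ) + 2)) := by
  set W := ∫ t in (0 : ℝ)..π, Real.sin t ^ (2 * m + 3) with hW
  set G : ℝ → ℝ × ℝ → ℝ := fun s c => (Dsk s).indicator (fun c : ℝ × ℝ => c.2 ^ (2 * m + 1)) c with hG
  -- layer cake
  have e1 : ∀ c ∈ Dsk R, ∫ s in Ioo 0 R, G s c = (R - KK c) * c.2 ^ (2 * m + 1) := by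
    intro c hc
    have hk : 0 ≤ KK c := KK_nonneg c
    have e2 : ∀ s : ℝ, G s c = (Ioi (KK c)).indicator (fun _ => c.2 ^ (2 * m + 1)) s := by
      intro s
      simp only [hG]
      by_cases h : KK c < s
      · rw [indicator_of_mem (show c ∈ Dsk s from ⟨hc.1, hc.2.1, h⟩), indicator_of_mem (mem_Ioi.2 h)]
      · rw [indicator_of_notMem (fun h' : c ∈ Dsk s => h h'.2.2), indicator_of_notMem (fun h' => h (mem_Ioi.1 h'))]
    simp_rw [e2]
    rw [setIntegral_indicator measurableSet_Ioi]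
    have e3 : Ioo 0 R ∩ Ioi (KK c) = Ioo (KK c) R := by
      ext x
      simp only [mem_inter_iff, mem_Ioo, mem_Ioi]
      constructor
      · rintro ⟨⟨_, h2⟩, h3⟩
        exact ⟨h3, h2⟩
      · rintro ⟨h1, h2⟩
        exact ⟨⟨lt_of_le_of_lt hk h1, h2⟩, h1⟩
    rw [e3, setIntegral_const, Real.volume_real_Ioo_of_le hc.2.2.le, smul_eq_mul]
  have hmeas : Measurable (fun p : (ℝ × ℝ) × ℝ => G p.2 p.1) := by
    have e4 : (fun p : (ℝ × ℝ) × ℝ => G p.2 p.1) =
        ({p : (ℝ × ℝ) × ℝ | 0 < p.1.1 ∧ 0 < p.1.2 ∧ KK p.1 < p.2}).indicator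
          (fun p => p.1.2 ^ (2 * m + 1)) := by
      funext p
      simp only [hG]
      by_cases h : p.1 ∈ Dsk p.2
      · rw [indicator_of_mem h, indicator_of_mem (show p ∈ {p : (ℝ × ℝ) × ℝ | 0 < p.1.1 ∧ 0 < p.1.2 ∧
          KK p.1 < p.2} from h)]
      · rw [indicator_of_notMem h, indicator_of_notMem (show p ∉ {p : (ℝ × ℝ) × ℝ | 0 < p.1.1 ∧ 0 < p.1.2 ∧
          KK p.1 < p.2} from h)]
    rw [e4]
    apply Measurable.indicator (by fun_prop)
    have o1 : IsOpen {p : (ℝ × ℝ) × ℝ | 0 < p.1.1} := isOpen_lt continuous_const (by fun_prop)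
    have o2 : IsOpen {p : (ℝ × ℝ) × ℝ | 0 < p.1.2} := isOpen_lt continuous_const (by fun_prop)
    have o3 : IsOpen {p : (ℝ × ℝ) × ℝ | KK p.1 < p.2} :=
      isOpen_lt (KK_cont.comp continuous_fst) (by fun_prop)
    exact (o1.inter (o2.inter o3)).measurableSet
  set μ : Measure ℝ := volume.restrict (Ioo 0 R) with hμ
  set ν : Measure (ℝ × ℝ) := volume.restrict (Dsk R) with hν
  have : IsFiniteMeasure ν := ⟨by rw [hν, Measure.restrict_apply_univ]; exact lt_top_iff_ne_top.2 (Dsk_finite R)⟩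
  have : IsFiniteMeasure μ := ⟨by rw [hμ, Measure.restrict_apply_univ]; simp⟩
  have hint : Integrable (fun p : (ℝ × ℝ) × ℝ => G p.2 p.1) (ν.prod μ) := by
    have hb : ∀ᵐ p ∂(ν.prod μ), ‖G p.2 p.1‖ ≤ R ^ (2 * m + 1) := by
      have e : ν.prod μ = (volume.prod volume).restrict (Dsk R ×ˢ Ioo 0 R) := by
        rw [hμ, hν, Measure.prod_restrict]
      rw [e]
      filter_upwards [ae_restrict_mem ((Dsk_measurable R).prod measurableSet_Ioo)] with p hp
      have h1 := (Dsk_subset_Icc R) hp.1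
      simp only [hG]
      by_cases h : p.1 ∈ Dsk p.2
      · rw [indicator_of_mem h, Real.norm_eq_abs, abs_of_nonneg (pow_nonneg h1.2.1 _)]
        exact pow_le_pow_left₀ h1.2.1 h1.2.2 _
      · rw [indicator_of_notMem h, norm_zero]
        positivity
    exact Integrable.of_bound hmeas.aestronglyMeasurable _ hb
  have hswap := integral_integral_swap (f := fun c s => G s c) (μ := ν) (ν := μ) hint
  have e5 : ∫ c in Dsk R, (R - KK c) * c.2 ^ (2 * m + 1) = ∫ c, ∫ s, G s c ∂μ ∂ν := by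
    rw [hν]
    apply setIntegral_congr_fun (Dsk_measurable R)
    intro c hc
    exact (e1 c hc).symm
  rw [e5, hswap]
  have e6 : ∫ s, ∫ c, G s c ∂ν ∂μ =
      ∫ s in Ioo 0 R, s ^ (2 * m + 3) * W / (4 * ((m : ℝ) + 1)) := by
    rw [hμ]
    apply setIntegral_congr_fun measurableSet_Ioo
    intro s hs
    simp only [hG]
    rw [hν, setIntegral_indicator (Dsk_measurable s)]
    have e7 : Dsk R ∩ Dsk s = Dsk s := by
      apply inter_eq_right.2
      intro c hc
      exact ⟨hc.1, hc.2.1, hc.2.2.trans hs.2⟩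
    rw [e7, Dsk_int hs.1 m]
  rw [e6, ← integral_Ioc_eq_integral_Ioo, ← intervalIntegral.integral_of_le hR.le,
    intervalIntegral.integral_div, intervalIntegral.integral_mul_const, integral_pow]
  rw [zero_pow (by omega), sub_zero]
  push_cast
  have h3 : (m : ℝ) + 2 ≠ 0 := by positivity
  have h4 : (m : ℝ) + 1 ≠ 0 := by positivity
  have h5 : 2 * (m : ℝ) + 3 + 1 ≠ 0 := by positivity
  field_simp
  ring

/-! ### The upper side -/

lemma ggD_le {F H R : ℝ} (hF : 0 < F) (hH : 0 < H) (a b : ℕ) :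
    ∫ c in Dsk R, gg F H a b c ≤
      F ^ (a + 1) * H ^ (b + 1) * ((∫ x in (0 : ℝ)..1, √(1 - x ^ 2) * x ^ b) * SC a (b + 3)) := by
  rw [← gg_integral hF hH]
  apply setIntegral_mono_set (gg_integrable hF hH a b)
  · filter_upwards [ae_restrict_mem (measurableSet_Ioi.prod measurableSet_Ioi)] with c hc
    exact gg_nonneg a b hc.1 hc.2
  · exact (Dsk_subset R).eventuallyLE

lemma ggD_lt {F H R : ℝ} (hF : 0 < F) (hH : 0 < H) (hR : 0 < R) (hRH : R < H) (a b : ℕ) :
    ∫ c in Dsk R, gg F H a b c <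
      F ^ (a + 1) * H ^ (b + 1) * ((∫ x in (0 : ℝ)..1, √(1 - x ^ 2) * x ^ b) * SC a (b + 3)) := by
  rw [← gg_integral hF hH]
  set Q : Set (ℝ × ℝ) := Ioi (0 : ℝ) ×ˢ Ioi (0 : ℝ) with hQ
  have hi := gg_integrable hF hH a b
  have hQm : MeasurableSet Q := measurableSet_Ioi.prod measurableSet_Ioi
  have h1 : ∫ c in Q, gg F H a b c = (∫ c in Q \ Dsk R, gg F H a b c) + ∫ c in Dsk R, gg F H a b c := by
    rw [← setIntegral_union disjoint_sdiff_left (Dsk_measurable R) (hi.mono_set sdiff_subset)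
      (hi.mono_set (Dsk_subset R)), sdiff_union_of_subset (Dsk_subset R)]
  rw [h1]
  have h2 : 0 < ∫ c in Q \ Dsk R, gg F H a b c := by
    rw [setIntegral_pos_iff_support_of_nonneg_ae]
    · set U : Set (ℝ × ℝ) := {c | 0 < c.1 ∧ R < c.2 ∧ (c.1 / F) ^ 2 + (c.2 / H) ^ 2 < 1} with hU
      have hUo : IsOpen U := by
        have o1 : IsOpen {c : ℝ × ℝ | 0 < c.1} := isOpen_lt continuous_const continuous_fst
        have o2 : IsOpen {c : ℝ × ℝ | R < c.2} := isOpen_lt continuous_const continuous_snd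
        have o3 : IsOpen {c : ℝ × ℝ | (c.1 / F) ^ 2 + (c.2 / H) ^ 2 < 1} :=
          isOpen_lt (by fun_prop) continuous_const
        exact o1.inter (o2.inter o3)
      have hUn : U.Nonempty := by
        set x := (R + H) / 2 with hx
        have hx1 : R < x := by rw [hx]; linarith
        have hx2 : x < H := by rw [hx]; linarith
        have hx0 : 0 < x := hR.trans hx1
        have hxF : (x / H) ^ 2 < 1 := by
          have h3 : x / H < 1 := by rwa [div_lt_one hH]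
          have h4 : 0 < x / H := by positivity
          nlinarith
        set δ := 1 - (x / H) ^ 2 with hδ
        have hδ0 : 0 < δ := by rw [hδ]; linarith
        have hδ1 : δ ≤ 1 := by rw [hδ]; nlinarith [sq_nonneg (x / H)]
        refine ⟨(F * (δ / 2), x), by positivity, hx1, ?_⟩
        simp only
        have h5 : F * (δ / 2) / F = δ / 2 := by field_simp
        rw [h5]
        nlinarith
      refine (hUo.measure_pos volume hUn).trans_le (measure_mono ?_)
      intro c hc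
      have hc2 : 0 < c.2 := hR.trans hc.2.1
      refine ⟨?_, ⟨⟨hc.1, hc2⟩, fun h => ?_⟩⟩
      · rw [Function.mem_support]
        unfold gg
        have h6 : 0 < √(1 - ((c.1 / F) ^ 2 + (c.2 / H) ^ 2)) := Real.sqrt_pos.2 (by linarith [hc.2.2])
        have h7 : 0 < c.1 ^ a * c.2 ^ b := mul_pos (pow_pos hc.1 a) (pow_pos hc2 b)
        positivity
      · have := h.2.2
        linarith [hc.2.1, le_KK c]
    · filter_upwards [ae_restrict_mem (hQm.diff (Dsk_measurable R))] with c hc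
      exact gg_nonneg a b hc.1.1 hc.1.2
    · exact hi.mono_set sdiff_subset
  linarith

/-! ### The theorem -/

theorem t_2V : S2_V := by
  intro L R f h n hn hL hR hfc hhc hfpos hhpos hbig hA
  obtain ⟨m, rfl⟩ := Nat.exists_eq_add_of_le' hn
  set b : ℕ := 2 * m + 1 with hb
  have hb2 : 2 * (m + 2) - 2 = b + 1 := by omega
  have hb3 : 2 * (m + 2) - 1 = 2 * m + 3 := by omega
  rw [hb2, hb3, show 2 * (m + 2) = 2 * m + 4 by ring]
  have hfm : Measurable f := hfc.measurable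
  have hhm : Measurable h := hhc.measurable
  set J1 := ∫ x in (0 : ℝ)..1, √(1 - x ^ 2) * x ^ b with hJ1
  set K := J1 * SC 0 (b + 3) with hK
  set μ : Measure ℝ := volume.restrict (Ioo 0 L) with hμ
  set ν : Measure (ℝ × ℝ) := volume.restrict (Dsk R) with hν
  have : IsFiniteMeasure ν := ⟨by rw [hν, Measure.restrict_apply_univ]; exact lt_top_iff_ne_top.2 (Dsk_finite R)⟩
  have : IsFiniteMeasure μ := ⟨by rw [hμ, Measure.restrict_apply_univ]; simp⟩
  -- Fubini
  have hmeas : Measurable (fun p : ℝ × (ℝ × ℝ) => gg (f p.1) (h p.1) 0 b p.2) := by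
    unfold gg
    fun_prop
  have hint : Integrable (fun p : ℝ × (ℝ × ℝ) => gg (f p.1) (h p.1) 0 b p.2) (μ.prod ν) := by
    have hb : ∀ᵐ p ∂(μ.prod ν), ‖gg (f p.1) (h p.1) 0 b p.2‖ ≤ R ^ 0 * R ^ b := by
      have e : μ.prod ν = (volume.prod volume).restrict (Ioo 0 L ×ˢ Dsk R) := by
        rw [hμ, hν, Measure.prod_restrict]
      rw [e]
      filter_upwards [ae_restrict_mem (measurableSet_Ioo.prod (Dsk_measurable R))] with p hp
      have h1 := (Dsk_subset_Icc R) hp.2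
      exact gg_bound 0 b hp.2.1 hp.2.2.1 h1.1.2 h1.2.2
    exact Integrable.of_bound hmeas.aestronglyMeasurable _ hb
  have hswap := integral_integral_swap (f := fun r c => gg (f r) (h r) 0 b c) (μ := μ) (ν := ν) hint
  -- lower bound
  have hact : ∀ c : ℝ × ℝ, (2 * ∫ r in Ioo 0 L, √(1 - Veff f h c.1 c.2 r)) * (c.1 ^ 0 * c.2 ^ b) =
      2 * ∫ r, gg (f r) (h r) 0 b c ∂μ := by
    intro c
    rw [mul_assoc, ← integral_mul_const]
    rfl
  set W := ∫ t in (0 : ℝ)..π, Real.sin t ^ (2 * m + 3) with hW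
  have h1 : 2 * π * (R ^ (2 * m + 4) * W / (8 * ((m : ℝ) + 1) * ((m : ℝ) + 2))) ≤
      2 * ∫ c, ∫ r, gg (f r) (h r) 0 b c ∂μ ∂ν := by
    rw [hW, ← lower_intD hR m, ← integral_const_mul, ← integral_const_mul]
    apply setIntegral_mono_on _ _ (Dsk_measurable R)
    · intro c hc
      rw [← hact]
      have h2 : 2 * π * ((R - KK c) * c.2 ^ (2 * m + 1)) =
          2 * π * (R - KK c) * (c.1 ^ 0 * c.2 ^ b) := by rw [pow_zero, one_mul, hb]; ring
      rw [h2]
      apply mul_le_mul_of_nonneg_right (hA c hc)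
      have := hc.1
      have := hc.2.1
      positivity
    · have hKc := KK_cont
      have h2 : IntegrableOn (fun c : ℝ × ℝ => 2 * π * ((R - KK c) * c.2 ^ (2 * m + 1)))
          (Icc (0 : ℝ) R ×ˢ Icc (0 : ℝ) R) :=
        (Continuous.continuousOn (by fun_prop)).integrableOn_compact (isCompact_Icc.prod isCompact_Icc)
      exact h2.mono_set (Dsk_subset_Icc R)
    · exact (hint.integral_prod_right).const_mul 2
  rw [← hswap] at h1
  -- comparison
  have hIm : Integrable (fun r => ∫ c, gg (f r) (h r) 0 b c ∂ν) μ := hint.integral_prod_left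
  have hfi : Integrable (fun r => f r ^ (0 + 1) * h r ^ (b + 1) * K) μ := by
    have h3 : IntegrableOn (fun r => f r ^ (0 + 1) * h r ^ (b + 1) * K) (Icc 0 L) :=
      (Continuous.continuousOn (by fun_prop)).integrableOn_Icc
    exact h3.mono_set Ioo_subset_Icc_self
  have h3 : ∫ r, ∫ c, gg (f r) (h r) 0 b c ∂ν ∂μ < ∫ r, f r ^ (0 + 1) * h r ^ (b + 1) * K ∂μ := by
    rw [← sub_pos, ← integral_sub hfi hIm]
    rw [integral_pos_iff_support_of_nonneg_ae]
    · obtain ⟨r₀, ⟨hr0, hrL⟩, hrR⟩ := hbig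
      have hopen : IsOpen (Ioo 0 L ∩ {r | R < h r}) := isOpen_Ioo.inter (isOpen_lt continuous_const hhc)
      have hpos : 0 < volume (Ioo 0 L ∩ {r | R < h r}) :=
        hopen.measure_pos volume ⟨r₀, ⟨hr0, hrL⟩, hrR⟩
      have hμpos : 0 < μ (Ioo 0 L ∩ {r | R < h r}) := by
        rw [hμ, Measure.restrict_apply hopen.measurableSet]
        have : Ioo 0 L ∩ {r | R < h r} ∩ Ioo 0 L = Ioo 0 L ∩ {r | R < h r} := by
          ext x; simp; tauto
        rwa [this]
      refine hμpos.trans_le (measure_mono ?_)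
      intro r hr
      rw [Function.mem_support]
      have h5 := ggD_lt (hfpos r hr.1) (hR.trans hr.2) hR hr.2 0 b
      exact (sub_pos.mpr h5).ne'
    · have hae : ∀ᵐ r ∂μ, r ∈ Ioo 0 L := ae_restrict_mem measurableSet_Ioo
      filter_upwards [hae] with r hr
      have h5 := ggD_le (R := R) (hfpos r hr) (hhpos r hr) 0 b
      simp only [Pi.zero_apply]
      exact sub_nonneg.2 h5
    · exact hfi.sub hIm
  have h4 : ∫ r, f r ^ (0 + 1) * h r ^ (b + 1) * K ∂μ = K * ∫ r in (0 : ℝ)..L, f r * h r ^ (b + 1) := by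
    rw [integral_mul_const, intervalIntegral.integral_of_le hL.le, hμ,
      integral_Ioc_eq_integral_Ioo, mul_comm]
    simp
  -- constants
  have hid := beta_id 0 b
  have hB : J1 = (1 / ((b : ℝ) + 2)) * ∫ x in (0 : ℝ)..(π / 2), Real.sin x ^ b :=
    Pool.Agent.H206R2.Rot.TE.B_eq b
  rw [← hB, ← hK, zero_add, SC_one] at hid
  have hbR : (b : ℝ) = 2 * m + 1 := by rw [hb]; push_cast; ring
  have hKv : 2 * K = π / (4 * ((m : ℝ) + 1) * ((m : ℝ) + 2)) := by
    have h5 : ((0 + b + 3).factorial : ℝ) = ((b : ℝ) + 3) * ((b : ℝ) + 2) * ((b : ℝ) + 1) * b.factorial := by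
      rw [show 0 + b + 3 = b + 1 + 1 + 1 by ring, Nat.factorial_succ, Nat.factorial_succ, Nat.factorial_succ]
      push_cast
      ring
    rw [h5] at hid
    have hf : (b.factorial : ℝ) ≠ 0 := by positivity
    push_cast at hid
    rw [hbR] at hid
    have h6 : (m : ℝ) + 1 ≠ 0 := by positivity
    have h7 : (m : ℝ) + 2 ≠ 0 := by positivity
    have h8 : 2 * (m : ℝ) + 1 + 3 ≠ 0 := by positivity
    have h9 : 2 * (m : ℝ) + 1 + 2 ≠ 0 := by positivity
    have h10 : 2 * (m : ℝ) + 1 + 1 ≠ 0 := by positivity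
    have h11 : 2 * (m : ℝ) + 1 + 1 + 1 ≠ 0 := by positivity
    have h12 : 2 * K = π * 1 * (b.factorial : ℝ) /
        ((2 * (m : ℝ) + 1 + 3) * (2 * (m : ℝ) + 1 + 2) * (2 * (m : ℝ) + 1 + 1) * b.factorial) *
          (2 * (m : ℝ) + 1 + 1 + 1) := by
      have h13 : 2 * K * (1 / (2 * (m : ℝ) + 1 + 1 + 1)) * (2 * (m : ℝ) + 1 + 1 + 1) = 2 * K := by
        field_simp
      rw [← h13, hid]
      simp
    rw [h12]
    field_simp
    ring
  have hπ := Real.pi_pos
  have hKpos : 0 < K := by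
    have : 0 < 2 * K := by rw [hKv]; positivity
    linarith
  rw [h4] at h3
  set I := ∫ r in (0 : ℝ)..L, f r * h r ^ (b + 1) with hI
  have h7 : 2 * π * (R ^ (2 * m + 4) * W / (8 * ((m : ℝ) + 1) * ((m : ℝ) + 2))) < 2 * K * I := by
    calc _ ≤ _ := h1
      _ < 2 * (K * I) := by linarith
      _ = _ := by ring
  rw [hKv] at h7
  have h8 : (0 : ℝ) < π / (4 * ((m : ℝ) + 1) * ((m : ℝ) + 2)) := by positivity
  have h9 : π / (4 * ((m : ℝ) + 1) * ((m : ℝ) + 2)) * (R ^ (2 * m + 4) * W) <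
      π / (4 * ((m : ℝ) + 1) * ((m : ℝ) + 2)) * I := by
    calc _ = 2 * π * (R ^ (2 * m + 4) * W / (8 * ((m : ℝ) + 1) * ((m : ℝ) + 2))) := by
          have h6 : (m : ℝ) + 1 ≠ 0 := by positivity
          have h7 : (m : ℝ) + 2 ≠ 0 := by positivity
          field_simp
          ring
      _ < π / (4 * ((m : ℝ) + 1) * ((m : ℝ) + 2)) * I := h7
  exact lt_of_mul_lt_mul_left h9 h8.le

end Pool.Agent.Helper59.CPS
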